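import Pool.Agent.helper14.AV.Spec

/-!
# MP_801ee0_co, row EIN: consecutive pairs of a list and positions
-/

set_option autoImplicit false

namespace Pool.Agent.helper14.AV

theorem EIN_len {α : Type} : ∀ l : List α, (edges l).length = l.length - 1
  | [] => rfl
  | [_] => rfl
  | x :: y :: l => by
    have ih := EIN_len (y :: l)
    simp only [edges, List.length_cons] at ih ⊢
    omega

theorem EIN_get {α : Type} : ∀ (l : List α) (i : ℕ) (h : i + 1 < l.length)
    (h' : i < (edges l).length), (edges l)[i] = (l[i]'(Nat.lt_of_succ_lt h), l[i + 1])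
  | [], i, h, _ => absurd h (Nat.not_lt_zero _)
  | [_], i, h, _ => absurd h (by simp)
  | x :: y :: l, 0, _, _ => rfl
  | x :: y :: l, i + 1, h, h' => by
    have ih := EIN_get (y :: l) i (by simpa using h) (by simpa [edges] using h')
    simpa [edges] using ih

/-- **Row EIN** -/
theorem EIN : EIN_stmt := fun _ l => ⟨EIN_len l, fun i h h' => EIN_get l i h h'⟩

end Pool.Agent.helper14.AV
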